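import Pool.Agent.H10.FEW.Stmts
import Pool.Agent.H47.ABCR.SHG
import Pool.Agent.H7.RhoU.Mass

/-!
# FEW, module GLC: many primes `l` such that `l - 1` has a prime factor in `(x ^ a, x ^ b]`

As module SHG of ABCR, with two changes: the sum of `1 / (s - 1)` over the primes `s` in
`(x ^ a, x ^ b]` is bounded below by a constant (Mertens), and every `l` has at most `2 / a` prime
factors `s > x ^ a` of `l - 1`.
-/

set_option autoImplicit false

namespace Pool.FEW

open Finset Filter MTA Pool.Agent.H20.ABCR Pool.Agent.H47.ABCR Pool.Agent.H98.ABCR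

private theorem glc_PS {a b : ℝ} (ha : 0 < a) (hab : a < b) : ∃ (c x0 : ℝ), 0 < c ∧
    ∀ x : ℝ, x0 ≤ x → c ≤ ∑ s ∈ PSg a b x, 1 / (s.totient : ℝ) := by
  obtain ⟨C, hC, hM⟩ := RhoU.mertens_log
  have hb : 0 < b := ha.trans hab
  have e1 : ∀ᶠ x : ℝ in atTop, 2 * (C + 3) / (b - a) ≤ Real.log x :=
    Real.tendsto_log_atTop.eventually_ge_atTop _
  have e2 := shi_rpow_ev b hb 2
  obtain ⟨x0, hx0⟩ := eventually_atTop.1 ((e1.and e2).and (eventually_ge_atTop (3 : ℝ)))
  refine ⟨(b - a) / (2 * b), x0, div_pos (sub_pos.2 hab) (by positivity), fun x hx => ?_⟩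
  obtain ⟨⟨h1, h2⟩, h3⟩ := hx0 x hx
  have hx1 : 1 ≤ x := by linarith
  have hxp : 0 < x := by linarith
  have hlog : 0 < Real.log x := Real.log_pos (by linarith)
  have hba : 0 < b - a := sub_pos.2 hab
  rw [div_le_iff₀ hba] at h1
  set m := ⌊x ^ a⌋₊ with hm
  set n := ⌊x ^ b⌋₊ with hn
  have hxa1 : 1 ≤ x ^ a := Real.one_le_rpow hx1 ha.le
  have hm1 : 1 ≤ m := Nat.le_floor (by push_cast; exact hxa1)
  have hn1 : 1 ≤ n := Nat.le_floor (by push_cast; linarith)
  have hmle : (m : ℝ) ≤ x ^ a := Nat.floor_le (by positivity)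
  have hnle : (n : ℝ) ≤ x ^ b := Nat.floor_le (by positivity)
  have hnge : x ^ b / 2 ≤ n := by
    have := Nat.lt_floor_add_one (x ^ b)
    rw [← hn] at this
    linarith
  have hmn : m ≤ n := Nat.floor_le_floor (Real.rpow_le_rpow_of_exponent_le hx1 hab.le)
  have hMn := hM n hn1
  have hMm := Pool.Agent.H85.Rho.AA_le hm1
  have hlm : Real.log m ≤ a * Real.log x := by
    rw [← Real.log_rpow hxp]
    exact Real.log_le_log (by exact_mod_cast hm1) hmle
  have hln : b * Real.log x - Real.log 2 ≤ Real.log n := by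
    rw [← Real.log_rpow hxp, ← Real.log_div (by positivity) (by norm_num)]
    exact Real.log_le_log (by positivity) hnge
  have hsplit : ∑ p ∈ Pool.Agent.H85.Rho.pr 0 n, Real.log p / (p : ℝ) =
      ∑ p ∈ Pool.Agent.H85.Rho.pr 0 m, Real.log p / (p : ℝ) +
        ∑ p ∈ Pool.Agent.H85.Rho.pr m n, Real.log p / (p : ℝ) := by
    rw [← Finset.sum_union]
    · refine Finset.sum_congr ?_ fun _ _ => rfl
      ext p
      rw [mem_union, Pool.Agent.H85.Rho.mem_pr, Pool.Agent.H85.Rho.mem_pr,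
        Pool.Agent.H85.Rho.mem_pr]
      constructor
      · rintro ⟨⟨q1, q2⟩, q3⟩
        by_cases h : p ≤ m
        · exact Or.inl ⟨⟨q1, h⟩, q3⟩
        · exact Or.inr ⟨⟨by omega, q2⟩, q3⟩
      · rintro (⟨⟨q1, q2⟩, q3⟩ | ⟨⟨q1, q2⟩, q3⟩)
        · exact ⟨⟨q1, by omega⟩, q3⟩
        · exact ⟨⟨by omega, q2⟩, q3⟩
    · rw [Finset.disjoint_left]
      intro p hp hq
      rw [Pool.Agent.H85.Rho.mem_pr] at hp hq
      omega
  have hAA : ∑ p ∈ Pool.Agent.H85.Rho.pr 0 m, Real.log p / (p : ℝ) ≤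
      Real.log m + Real.log 4 := hMm
  have hl2 : Real.log 2 ≤ 1 := by
    have := Real.log_two_lt_d9
    linarith
  have hl4 : Real.log 4 ≤ 2 := by
    have h4 : (4 : ℝ) = 2 * 2 := by norm_num
    rw [h4, Real.log_mul (by norm_num) (by norm_num)]
    linarith
  have hlow : (b - a) / 2 * Real.log x ≤
      ∑ p ∈ Pool.Agent.H85.Rho.pr m n, Real.log p / (p : ℝ) := by
    have e3 : (b - a) * Real.log x - (C + 3) ≤
        ∑ p ∈ Pool.Agent.H85.Rho.pr m n, Real.log p / (p : ℝ) := by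
      have : (b - a) * Real.log x = b * Real.log x - a * Real.log x := by ring
      linarith
    linarith
  have hup : ∑ p ∈ Pool.Agent.H85.Rho.pr m n, Real.log p / (p : ℝ) ≤
      b * Real.log x * ∑ s ∈ PSg a b x, 1 / (s.totient : ℝ) := by
    rw [Finset.mul_sum]
    refine (Finset.sum_le_sum (g := fun s => b * Real.log x * (1 / (s.totient : ℝ))) ?_).trans
      (Finset.sum_le_sum_of_subset_of_nonneg ?_ ?_)
    · intro p hp
      rw [Pool.Agent.H85.Rho.mem_pr] at hp
      have hp0 : (0 : ℝ) < p := by exact_mod_cast hp.2.pos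
      have hpt : (0 : ℝ) < (p.totient : ℝ) := by exact_mod_cast Nat.totient_pos.2 hp.2.pos
      have hpl : Real.log p ≤ b * Real.log x := by
        rw [← Real.log_rpow hxp]
        refine Real.log_le_log hp0 (le_trans ?_ hnle)
        exact_mod_cast hp.1.2
      have hple : (p.totient : ℝ) ≤ p := by exact_mod_cast Nat.totient_le p
      rw [div_eq_mul_one_div]
      have e5 : 1 / (p : ℝ) ≤ 1 / (p.totient : ℝ) := one_div_le_one_div_of_le hpt hple
      have e6 : 0 ≤ Real.log p := Real.log_natCast_nonneg p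
      have e7 : 0 ≤ b * Real.log x := by positivity
      exact mul_le_mul hpl e5 (by positivity) e7
    · intro p hp
      rw [Pool.Agent.H85.Rho.mem_pr] at hp
      rw [PSg, mem_filter, mem_Icc]
      refine ⟨⟨by omega, hp.1.2⟩, hp.2, ?_⟩
      have := Nat.lt_floor_add_one (x ^ a)
      rw [← hm] at this
      refine lt_of_lt_of_le this ?_
      exact_mod_cast hp.1.1
    · intro i _ _
      positivity
  have := hlow.trans hup
  rw [div_le_iff₀ (by positivity)]
  have e8 : (b - a) / 2 * Real.log x = ((b - a) / 2) * Real.log x := rfl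
  have e9 : b * Real.log x * ∑ s ∈ PSg a b x, 1 / (s.totient : ℝ) =
      (b * ∑ s ∈ PSg a b x, 1 / (s.totient : ℝ)) * Real.log x := by ring
  rw [e9] at this
  have := le_of_mul_le_mul_right this hlog
  linarith

/-- few prime factors larger than `x ^ a` -/
private theorem glc_om {a x : ℝ} (ha : 0 < a) (hx : 8 ≤ x) (m : ℕ) (hm0 : m ≠ 0)
    (hm : (m : ℝ) ≤ 8 * x) (S : Finset ℕ) (hS : ∀ s ∈ S, s.Prime ∧ x ^ a < s ∧ s ∣ m) :
    (S.card : ℝ) ≤ 2 / a := by
  have hx0 : 0 < x := by linarith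
  have hlog : 0 < Real.log x := Real.log_pos (by linarith)
  have h1 : ∏ s ∈ S, s ∣ m := by
    refine Finset.prod_primes_dvd m (fun s hs => (hS s hs).1.prime) fun s hs => (hS s hs).2.2
  have h2 : ((∏ s ∈ S, s : ℕ) : ℝ) ≤ x ^ (2 : ℝ) := by
    have e1 : ((∏ s ∈ S, s : ℕ) : ℝ) ≤ m := by
      exact_mod_cast Nat.le_of_dvd (Nat.pos_of_ne_zero hm0) h1
    have e2 : x ^ (2 : ℝ) = x * x := by
      rw [show (2 : ℝ) = ((2 : ℕ) : ℝ) by norm_num, Real.rpow_natCast]; ring
    rw [e2]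
    nlinarith
  have h3 : (x ^ a) ^ S.card ≤ ((∏ s ∈ S, s : ℕ) : ℝ) := by
    push_cast
    rw [← Finset.prod_const]
    exact Finset.prod_le_prod (fun _ _ => by positivity) fun s hs => (hS s hs).2.1.le
  have h4 := h3.trans h2
  rw [← Real.rpow_natCast, ← Real.rpow_mul hx0.le] at h4
  have h5 : a * (S.card : ℝ) ≤ 2 := (Real.rpow_le_rpow_left_iff (by linarith)).1 h4
  rw [le_div_iff₀ ha]
  linarith

theorem glc_thm : S_GLC := by
  classical
  intro a b ha0 hab hb1
  obtain ⟨C, xa, k, hC0, ha⟩ := shg_emax ha0 hb1 shi_LARGE MTA.CHAR MTA.THPSI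
  obtain ⟨c2, xb, hc2, hb⟩ := glc_PS ha0 hab
  obtain ⟨c1, C1, hc1, hC1, hE⟩ := MTA.CHE
  obtain ⟨xc, hE⟩ := hE 1 le_rfl
  set th : ℝ := min a (1 / 20) with hth
  have hth0 : 0 < th := lt_min ha0 (by norm_num)
  have hev := shi_log_pow k th (c1 * c2 / (6 * C)) hth0 (by positivity)
  obtain ⟨xd, hd⟩ := eventually_atTop.1 (hev.and (eventually_ge_atTop (8 : ℝ)))
  refine ⟨a * c1 * c2 / 8, max (max xa xb) (max xc xd), by positivity, fun x hx => ?_⟩
  simp only [max_le_iff] at hx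
  obtain ⟨⟨hxa, hxb⟩, hxc, hxd⟩ := hx
  obtain ⟨hd1, hx8⟩ := hd x hxd
  have ha := ha x hxa
  have hb := hb x hxb
  have hE := (hE x hxc).1
  rw [Nat.cast_one, one_mul] at hE
  have hx0 : 0 < x := by linarith
  have hx1 : 1 ≤ x := by linarith
  have hl1 : 1 ≤ Real.log x := by
    rw [← Real.log_exp 1]
    exact Real.log_le_log (Real.exp_pos 1) (by linarith [Real.exp_one_lt_d9])
  have hl0 : 0 < Real.log x := by linarith
  have hl8 : Real.log (8 * x) ≤ 2 * Real.log x := by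
    rw [Real.log_mul (by norm_num) hx0.ne']
    have := Real.log_le_log (by norm_num) hx8
    linarith
  -- lower bound
  have h1 : ∀ s ∈ PSg a b x, TH 1 x * (1 / (s.totient : ℝ)) - Emax 1 x s ≤ THa 1 x s 1 := by
    intro s hs
    obtain ⟨a1, a2, a3⟩ := mem_PSg hx0.le hs
    have h2 := le_Emax 1 x s 1 a1.one_lt (Nat.coprime_one_left s)
    unfold EE at h2
    have h3 := (abs_le.1 h2).1
    have h4 : TH 1 x * (1 / (s.totient : ℝ)) = TH 1 x / s.totient := by ring
    linarith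
  have h2 := Finset.sum_le_sum h1
  rw [Finset.sum_sub_distrib, ← Finset.mul_sum] at h2
  have h3 : c1 * x * c2 ≤ TH 1 x * ∑ s ∈ PSg a b x, 1 / (s.totient : ℝ) := by
    gcongr
    exact le_trans (by positivity) hE
  -- upper bound
  have h4 := Finset.sum_le_sum (fun s hs => shg_tha (a := a) (b := b) (x := x) (by linarith) s hs)
  rw [← Finset.sum_mul] at h4
  have h5 : ∑ s ∈ PSg a b x, ((((GoodLg a b x).filter fun l => s ∣ l - 1).card : ℕ) : ℝ) ≤
      (GoodLg a b x).card * (2 / a) := by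
    have h6 : ∑ s ∈ PSg a b x, ((GoodLg a b x).filter fun l => s ∣ l - 1).card =
        ∑ l ∈ GoodLg a b x, ((PSg a b x).filter fun s => s ∣ l - 1).card :=
      Finset.sum_card_bipartiteAbove_eq_sum_card_bipartiteBelow (fun s l => s ∣ l - 1)
    have h7 : ∑ s ∈ PSg a b x, ((((GoodLg a b x).filter fun l => s ∣ l - 1).card : ℕ) : ℝ) =
        ∑ l ∈ GoodLg a b x, ((((PSg a b x).filter fun s => s ∣ l - 1).card : ℕ) : ℝ) := by
      exact_mod_cast h6
    rw [h7]
    calc ∑ l ∈ GoodLg a b x, ((((PSg a b x).filter fun s => s ∣ l - 1).card : ℕ) : ℝ)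
        ≤ ∑ l ∈ GoodLg a b x, 2 / a := by
          refine Finset.sum_le_sum fun l hl => ?_
          rw [GoodLg, mem_filter, mem_Icc] at hl
          have hl2 : 2 ≤ l := hl.1.1
          refine glc_om ha0 hx8 (l - 1) (by omega) ?_ _ fun s hs => ?_
          · calc ((l - 1 : ℕ) : ℝ) ≤ l := by exact_mod_cast Nat.sub_le l 1
              _ ≤ 8 * x := hl.2.2.2.1
          · rw [mem_filter] at hs
            have := mem_PSg hx0.le hs.1
            exact ⟨this.1, this.2.1, hs.2⟩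
      _ = _ := by rw [Finset.sum_const, nsmul_eq_mul]
  have hlog8 : 0 ≤ Real.log (8 * x) := Real.log_nonneg (by linarith)
  have h6 : ∑ s ∈ PSg a b x, THa 1 x s 1 ≤ (GoodLg a b x).card * (4 / a * Real.log x) := by
    refine h4.trans ?_
    calc _ ≤ ((GoodLg a b x).card * (2 / a)) * Real.log (8 * x) := by gcongr
      _ ≤ ((GoodLg a b x).card * (2 / a)) * (2 * Real.log x) := by gcongr
      _ = _ := by ring
  -- error
  have h7 : (C * (Real.log x) ^ k * (x ^ (1 - a) + x ^ (19 / 20 : ℝ)) + C * x ^ (4 / 5 : ℝ)) ≤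
      c1 * c2 / 2 * x := by
    have e1 : x ^ (1 - a) ≤ x ^ (1 - th) :=
      Real.rpow_le_rpow_of_exponent_le hx1 (by linarith [min_le_left a (1 / 20 : ℝ)])
    have e0 : x ^ (19 / 20 : ℝ) ≤ x ^ (1 - th) :=
      Real.rpow_le_rpow_of_exponent_le hx1 (by linarith [min_le_right a (1 / 20 : ℝ)])
    have e2 : x ^ (4 / 5 : ℝ) ≤ x ^ (1 - th) :=
      Real.rpow_le_rpow_of_exponent_le hx1 (by linarith [min_le_right a (1 / 20 : ℝ)])
    have e3 : (1 : ℝ) ≤ (Real.log x) ^ k := one_le_pow₀ hl1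
    calc (C * (Real.log x) ^ k * (x ^ (1 - a) + x ^ (19 / 20 : ℝ)) + C * x ^ (4 / 5 : ℝ))
        ≤ (C * (Real.log x) ^ k * (x ^ (1 - th) + x ^ (1 - th)) +
          C * (Real.log x) ^ k * x ^ (1 - th)) := by
          gcongr
          calc C = C * 1 := (mul_one C).symm
            _ ≤ _ := by gcongr
      _ = 3 * C * (Real.log x) ^ k * x ^ (1 - th) := by ring
      _ ≤ 3 * C * (c1 * c2 / (6 * C) * x ^ th) * x ^ (1 - th) := by gcongr
      _ = c1 * c2 / 2 * (x ^ th * x ^ (1 - th)) := by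
          field_simp; ring
      _ = _ := by
          rw [← Real.rpow_add hx0, add_sub_cancel, Real.rpow_one]
  have h9 : c1 * c2 / 2 * x ≤ (GoodLg a b x).card * (4 / a * Real.log x) := by
    have e1 : c1 * x * c2 - (C * (Real.log x) ^ k * (x ^ (1 - a) +
        x ^ (19 / 20 : ℝ)) + C * x ^ (4 / 5 : ℝ)) ≤
          (GoodLg a b x).card * (4 / a * Real.log x) := by
      linarith
    linarith
  refine ⟨GoodLg a b x, ?_, fun l hl => ?_⟩
  · rw [div_le_iff₀ hl0]
    have e1 : (GoodLg a b x).card * (4 / a * Real.log x) =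
        4 / a * ((GoodLg a b x).card * Real.log x) := by ring
    rw [e1] at h9
    have e2 : a * (c1 * c2 / 2 * x) ≤ a * (4 / a * ((GoodLg a b x).card * Real.log x)) :=
      mul_le_mul_of_nonneg_left h9 ha0.le
    have e3 : a * (4 / a * ((GoodLg a b x).card * Real.log x)) =
        4 * ((GoodLg a b x).card * Real.log x) := by field_simp
    rw [e3] at e2
    linarith
  · rw [GoodLg, mem_filter, mem_Icc] at hl
    obtain ⟨-, h10, h11, h12, h13⟩ := hl
    refine ⟨h10, ?_, h12, h13⟩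
    have : (0 : ℝ) ≤ l := Nat.cast_nonneg l
    linarith

end Pool.FEW
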